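import Pool.Agent.Run7.h538.TP.Stm

set_option autoImplicit false

open Finset Matrix InnerProductSpace

namespace Run7.h889.TP

open Run7.h538.TP

lemma inner_sum {k : ℕ} (y z : EuclideanSpace ℝ (Fin k)) :
    inner ℝ y z = ∑ j, y j * z j := by
  rw [PiLp.inner_apply]
  refine Finset.sum_congr rfl fun j _ => ?_
  simp [mul_comm]

/-- a linear functional that vanishes on generators vanishes on the span -/
lemma span_zero {k : ℕ} (w : Fin k → EuclideanSpace ℝ (Fin k)) (s : Set (Fin k))
    (y : EuclideanSpace ℝ (Fin k)) (hy : y ∈ Submodule.span ℝ (w '' s)) (c : Fin k → ℝ)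
    (h : ∀ t ∈ s, ∑ j, c j * w t j = 0) : ∑ j, c j * y j = 0 := by
  induction hy using Submodule.span_induction with
  | mem y hy =>
    obtain ⟨t, ht, rfl⟩ := hy
    exact h t ht
  | zero => simp
  | add y z _ _ h1 h2 =>
    have : ∑ j, c j * (y + z) j = ∑ j, c j * y j + ∑ j, c j * z j := by
      rw [← Finset.sum_add_distrib]
      refine Finset.sum_congr rfl fun j _ => ?_
      simp [mul_add]
    rw [this, h1, h2, add_zero]
  | smul a y _ h1 =>
    have : ∑ j, c j * (a • y) j = a * ∑ j, c j * y j := by
      rw [Finset.mul_sum]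
      refine Finset.sum_congr rfl fun j _ => ?_
      simp only [PiLp.smul_apply, smul_eq_mul]
      ring
    rw [this, h1, mul_zero]

theorem t_LZ : S_LZ := by
  intro k D x hD hx
  classical
  let v : Fin k → EuclideanSpace ℝ (Fin k) :=
    fun i => WithLp.toLp 2 (fun j => D j ^ i.val * x j)
  have hv : ∀ i j, v i j = D j ^ i.val * x j := fun i j => rfl
  have hlin : LinearIndependent ℝ v := by
    rw [Fintype.linearIndependent_iff]
    intro g hg
    have h1 : ∀ j, (∑ i : Fin k, D j ^ (i : ℕ) * g i) = 0 := by
      intro j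
      have h2 : (∑ i, g i • v i) j = 0 := by rw [hg]; rfl
      have h3 : (∑ i, g i • v i) j = (∑ i : Fin k, D j ^ (i : ℕ) * g i) * x j := by
        rw [Finset.sum_mul]
        simp only [WithLp.ofLp_sum, Finset.sum_apply, PiLp.smul_apply, smul_eq_mul, hv]
        refine Finset.sum_congr rfl fun i _ => ?_
        ring
      rw [h3] at h2
      exact (mul_eq_zero.1 h2).resolve_right (hx j)
    have h4 := Matrix.eq_zero_of_forall_index_sum_pow_mul_eq_zero hD h1
    intro i
    rw [h4]; rfl
  obtain ⟨e, he⟩ : ∃ e : Fin k → EuclideanSpace ℝ (Fin k), e = gramSchmidtNormed ℝ v := ⟨_, rfl⟩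
  have hon : Orthonormal ℝ e := he ▸ gramSchmidtNormed_orthonormal hlin
  have hsp : ∀ c : Fin k, Submodule.span ℝ (e '' Set.Iic c) = Submodule.span ℝ (v '' Set.Iic c) := by
    intro c
    rw [he, span_gramSchmidtNormed, span_gramSchmidt_Iic]
  have hor : ∀ i i', ∑ j, e i j * e i' j = if i = i' then 1 else 0 := by
    intro i i'
    rw [← inner_sum]
    exact orthonormal_iff_ite.1 hon i i'
  have hve : ∀ c, v c ∈ Submodule.span ℝ (e '' Set.Iic c) := by
    intro c
    rw [hsp]
    exact Submodule.subset_span ⟨c, le_refl c, rfl⟩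
  have hev : ∀ c, e c ∈ Submodule.span ℝ (v '' Set.Iic c) := by
    intro c
    rw [← hsp]
    exact Submodule.subset_span ⟨c, le_refl c, rfl⟩
  have hB : ∀ t c : Fin k, t < c → ∑ j, e c j * v t j = 0 := by
    intro t c htc
    refine span_zero e (Set.Iic t) (v t) (hve t) (fun j => e c j) ?_
    intro s hs
    rw [hor, if_neg]
    rintro rfl
    exact absurd (lt_of_lt_of_le htc hs) (lt_irrefl _)
  have hC : ∀ c : Fin k, ∑ j, e c j * v c j ≠ 0 := by
    intro c h0
    have h1 : ∑ j, e c j * e c j = 0 := by
      refine span_zero v (Set.Iic c) (e c) (hev c) (fun j => e c j) ?_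
      intro s hs
      rcases lt_or_eq_of_le (show s ≤ c from hs) with h | h
      · exact hB s c h
      · rw [h]; exact h0
    rw [hor, if_pos rfl] at h1
    exact one_ne_zero h1
  have hstep : ∀ (t c : Fin k) (ht : t.val + 1 < k),
      ∑ j, (e c j * D j) * v t j = ∑ j, e c j * v ⟨t.val + 1, ht⟩ j := by
    intro t c ht
    refine Finset.sum_congr rfl fun j _ => ?_
    rw [hv, hv]
    simp only
    rw [pow_succ]
    ring
  have hDD : ∀ i c : Fin k, i.val + 1 < c.val → ∑ j, (e c j * D j) * e i j = 0 := by
    intro i c hic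
    refine span_zero v (Set.Iic i) (e i) (hev i) (fun j => e c j * D j) ?_
    intro t ht
    have ht' : t.val ≤ i.val := ht
    have h1 : t.val + 1 < k := by have := c.isLt; omega
    rw [hstep t c h1]
    refine hB _ _ ?_
    rw [Fin.lt_def]
    simp only
    omega
  have hEE : ∀ i c : Fin k, i.val + 1 = c.val → ∑ j, (e c j * D j) * e i j ≠ 0 := by
    intro i c hic h0
    have hk : i.val + 1 < k := by have := c.isLt; omega
    have h1 : ∑ j, (e c j * D j) * v i j = 0 := by
      refine span_zero e (Set.Iic i) (v i) (hve i) (fun j => e c j * D j) ?_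
      intro t ht
      have ht' : t.val ≤ i.val := ht
      rcases lt_or_eq_of_le ht' with h | h
      · exact hDD t c (by omega)
      · have : t = i := Fin.ext h
        rw [this]; exact h0
    rw [hstep i c hk] at h1
    have h2 : (⟨i.val + 1, hk⟩ : Fin k) = c := Fin.ext hic
    rw [h2] at h1
    exact hC c h1
  refine ⟨fun i j => e i j, hor, ?_, ?_⟩
  · intro i hi
    have h1 := hve i
    have h2 : (Set.Iic i : Set (Fin k)) = {i} := by
      ext t
      simp only [Set.mem_Iic, Set.mem_singleton_iff]
      constructor
      · intro h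
        have h' : t.val ≤ i.val := h
        exact Fin.ext (by omega)
      · rintro rfl; exact le_refl _
    rw [h2, Set.image_singleton, Submodule.mem_span_singleton] at h1
    obtain ⟨a, ha⟩ := h1
    have h3 : ∀ j, x j = a * e i j := by
      intro j
      have h4 : (a • e i) j = v i j := by rw [ha]
      rw [hv, hi, pow_zero, one_mul] at h4
      rw [← h4]
      simp
    refine ⟨a, ?_, h3⟩
    rintro rfl
    apply hx i
    rw [h3 i, zero_mul]
  · intro i i' hii
    rcases lt_or_gt_of_ne (fun h => hii (Fin.ext h) : i.val ≠ i'.val) with h | h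
    · have hs : ∑ j, e i j * D j * e i' j = ∑ j, (e i' j * D j) * e i j :=
        Finset.sum_congr rfl fun j _ => by ring
      simp only []
      rw [hs]
      constructor
      · intro hne
        by_contra hcon
        exact hne (hDD i i' (by omega))
      · intro hadj
        exact hEE i i' (by omega)
    · constructor
      · intro hne
        by_contra hcon
        exact hne (hDD i' i (by omega))
      · intro hadj
        exact hEE i' i (by omega)

end Run7.h889.TP
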